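import Pool.Agent.PFE.StmtsE1

/-!
# Squad PFE, row IDF: the idempotent `f`
-/

open scoped BigOperators

namespace Pool.Agent.PFE.H68

/-- a multiplicatively closed subspace of nilpotent elements is nilpotent -/
theorem nil_subspace {K A : Type} [Field K] [Ring A] [Algebra K A] [Module.Finite K A]
    (J : Submodule K A) (hm : J * J ≤ J) (hn : ∀ x ∈ J, IsNilpotent x) :
    ∃ M : ℕ, J ^ M = ⊥ := by
  -- the powers stabilise
  have hle : ∀ n, J ^ (n + 2) ≤ J ^ (n + 1) := by
    intro n
    rw [pow_succ, pow_succ, mul_assoc]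
    exact Submodule.mul_le.2 fun a ha b hb => Submodule.mul_mem_mul ha (hm hb)
  have hanti : Antitone fun n : ℕ => J ^ (n + 1) := antitone_nat_of_succ_le hle
  obtain ⟨k, hk⟩ := IsArtinian.monotone_stabilizes
    (⟨fun n => OrderDual.toDual (J ^ (n + 1)), fun a b h => hanti h⟩ : ℕ →o (Submodule K A)ᵒᵈ)
  have hk' : ∀ m, k ≤ m → J ^ (k + 1) = J ^ (m + 1) := fun m hm => hk m hm
  obtain ⟨L, hL⟩ : ∃ L, L = J ^ (k + 1) := ⟨_, rfl⟩
  have hLL : L * L = L := by
    rw [hL, ← pow_add]
    have := hk' (k + 1 + k) (by omega)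
    rw [show k + 1 + (k + 1) = k + 1 + k + 1 by ring, ← this]
  have hLJ : L ≤ J := by
    rw [hL]
    have : J ^ (k + 1) ≤ J ^ (0 + 1) := hanti (Nat.zero_le k)
    simpa using this
  refine ⟨k + 1, ?_⟩
  rw [← hL]
  by_contra hne
  -- minimal subspace
  have hwf : WellFounded ((· < ·) : Submodule K A → Submodule K A → Prop) := wellFounded_lt
  obtain ⟨U, ⟨hU0, hUL⟩, hmin⟩ := hwf.has_min {U : Submodule K A | U ≠ ⊥ ∧ U * L = U}
    ⟨L, hne, hLL⟩
  obtain ⟨u, hu, hu'⟩ : ∃ u ∈ U, L.map (LinearMap.mulLeft K u) ≠ ⊥ := by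
    by_contra hcon
    push Not at hcon
    apply hU0
    rw [← hUL, eq_bot_iff, Submodule.mul_le]
    intro m hm n hn
    have h1 : m * n ∈ L.map (LinearMap.mulLeft K m) := ⟨n, hn, rfl⟩
    rw [hcon m hm] at h1
    exact h1
  have hmapL : L.map (LinearMap.mulLeft K u) * L = L.map (LinearMap.mulLeft K u) := by
    have h2 : ∀ V : Submodule K A, V.map (LinearMap.mulLeft K u) = Submodule.span K {u} * V := by
      intro V
      apply le_antisymm
      · rintro _ ⟨v, hv, rfl⟩
        exact Submodule.mul_mem_mul (Submodule.mem_span_singleton_self u) hv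
      · rw [Submodule.mul_le]
        intro m hm n hn
        obtain ⟨c, rfl⟩ := Submodule.mem_span_singleton.1 hm
        exact ⟨c • n, Submodule.smul_mem _ c hn, by simp⟩
    rw [h2, mul_assoc, hLL]
  have hle2 : L.map (LinearMap.mulLeft K u) ≤ U := by
    rintro _ ⟨v, hv, rfl⟩
    rw [← hUL]
    exact Submodule.mul_mem_mul hu hv
  have heq : L.map (LinearMap.mulLeft K u) = U := by
    by_contra hne2
    exact hmin _ ⟨hu', hmapL⟩ (lt_of_le_of_ne hle2 hne2)
  obtain ⟨x, hx, hxu⟩ : ∃ x ∈ L, u * x = u := by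
    have h3 : u ∈ L.map (LinearMap.mulLeft K u) := by rw [heq]; exact hu
    obtain ⟨x, hx, hxu⟩ := h3
    exact ⟨x, hx, hxu⟩
  have hpow : ∀ n : ℕ, u * x ^ n = u := by
    intro n
    induction n with
    | zero => simp
    | succ n ih => rw [pow_succ, ← mul_assoc, ih, hxu]
  obtain ⟨n, hn0⟩ := hn x (hLJ hx)
  have hu0 : u = 0 := by rw [← hpow n, hn0, mul_zero]
  apply hu'
  rw [eq_bot_iff]
  rintro _ ⟨v, _, rfl⟩
  simp [hu0]

/-- a non nilpotent algebraic element has a nonzero idempotent `x g(x)` -/
theorem fitting {K A : Type} [Field K] [Ring A] [Algebra K A] [Module.Finite K A] (x : A)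
    (hx : ¬ IsNilpotent x) : ∃ g : Polynomial K, x * Polynomial.aeval x g ≠ 0 ∧
      (x * Polynomial.aeval x g) * (x * Polynomial.aeval x g) = x * Polynomial.aeval x g := by
  have hint : IsIntegral K x := IsIntegral.of_finite K x
  have hp0 : minpoly K x ≠ 0 := minpoly.ne_zero hint
  obtain ⟨r, hr, hrd⟩ := Polynomial.exists_eq_pow_rootMultiplicity_mul_and_not_dvd
    (minpoly K x) hp0 0
  rw [Polynomial.C_0, sub_zero] at hr hrd
  obtain ⟨m, hm⟩ : ∃ m, m = (minpoly K x).rootMultiplicity 0 := ⟨_, rfl⟩
  rw [← hm] at hr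
  have hcop : IsCoprime (Polynomial.X ^ (m + 1) : Polynomial K) r :=
    IsCoprime.pow_left ((Polynomial.prime_X.irreducible.coprime_iff_not_dvd).2 hrd)
  obtain ⟨a, b, hab⟩ := hcop
  have h0 : Polynomial.aeval x (Polynomial.X ^ m * r) = 0 := by
    rw [← hr]; exact minpoly.aeval K x
  refine ⟨a * Polynomial.X ^ m, ?_⟩
  have he : x * Polynomial.aeval x (a * Polynomial.X ^ m) =
      Polynomial.aeval x (a * Polynomial.X ^ (m + 1)) := by
    have : (a * Polynomial.X ^ (m + 1) : Polynomial K) =
        Polynomial.X * (a * Polynomial.X ^ m) := by ring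
    rw [this, map_mul (Polynomial.aeval x) Polynomial.X, Polynomial.aeval_X]
  rw [he]
  have hab' : Polynomial.aeval x (a * Polynomial.X ^ (m + 1)) + Polynomial.aeval x (b * r) = 1 := by
    rw [← map_add, hab, map_one]
  constructor
  · intro hz
    rw [hz, zero_add] at hab'
    apply hx
    refine ⟨m, ?_⟩
    have h1 : x ^ m * Polynomial.aeval x (b * r) = 0 := by
      have h2 : (Polynomial.X ^ m * (b * r) : Polynomial K) = b * (Polynomial.X ^ m * r) := by ring
      have h3 : x ^ m * Polynomial.aeval x (b * r) =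
          Polynomial.aeval x (Polynomial.X ^ m * (b * r)) := by
        rw [map_mul (Polynomial.aeval x) (Polynomial.X ^ m), map_pow, Polynomial.aeval_X]
      rw [h3, h2, map_mul, h0, mul_zero]
    rw [hab', mul_one] at h1
    exact h1
  · have h4 : Polynomial.aeval x (a * Polynomial.X ^ (m + 1)) *
        Polynomial.aeval x (b * r) = 0 := by
      have h5 : (a * Polynomial.X ^ (m + 1) * (b * r) : Polynomial K) =
          (a * b * Polynomial.X) * (Polynomial.X ^ m * r) := by ring
      rw [← map_mul, h5, map_mul, h0, mul_zero]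
    calc Polynomial.aeval x (a * Polynomial.X ^ (m + 1)) *
        Polynomial.aeval x (a * Polynomial.X ^ (m + 1))
        = Polynomial.aeval x (a * Polynomial.X ^ (m + 1)) *
          (Polynomial.aeval x (a * Polynomial.X ^ (m + 1)) + Polynomial.aeval x (b * r)) := by
          rw [mul_add, h4, add_zero]
      _ = _ := by rw [hab', mul_one]

theorem idf (h : TxrStmt) : IdfStmt := by
  intro K A _ _ _ _ y l hl hy
  obtain ⟨hN, hnT, hTn, -, -, -, -⟩ := h K A PUnit y l (1 : PUnit →* K) hl hy (by simp)
  have hNx : ∀ (p : PUnit) (a : A), a ∈ Nx y (1 : PUnit →* K) p ↔ y * a = a * y := by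
    intro p a
    show y * a = (1 : PUnit →* K) p • (a * y) ↔ _
    rw [MonoidHom.one_apply, one_smul]
  have hN' : ∀ a, y * Tx y l (1 : K) a = Tx y l (1 : K) a * y := by
    intro a
    have := hN PUnit.unit a
    rwa [hNx] at this
  have hnT' : ∀ n a, y * n = n * y → n * Tx y l (1 : K) a = Tx y l (1 : K) (n * a) := by
    intro n a hn
    have := hnT PUnit.unit PUnit.unit n a ((hNx _ _).2 hn)
    simpa using this
  have hTn' : ∀ n a, y * n = n * y → Tx y l (1 : K) a * n = Tx y l (1 : K) (a * n) := by
    intro n a hn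
    have := hTn PUnit.unit PUnit.unit n a ((hNx _ _).2 hn)
    simpa using this
  let T : A →ₗ[K] A :=
    { toFun := Tx y l (1 : K)
      map_add' := by
        intro a b
        simp only [Tx, mul_add, add_mul, smul_add, Finset.sum_add_distrib]
      map_smul' := by
        intro c a
        simp only [Tx, mul_smul_comm, smul_mul_assoc, Finset.smul_sum, RingHom.id_apply]
        refine Finset.sum_congr rfl fun j _ => ?_
        rw [smul_comm] }
  have hTT : ∀ a, T a = Tx y l (1 : K) a := fun a => rfl
  simp only [← hTT] at hN' hnT' hTn' ⊢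
  -- the maximal idempotent
  let P : ℕ → Prop := fun n => ∃ a : A, T a * T a = T a ∧
    Module.finrank K (LinearMap.range (LinearMap.mulLeft K (T a))) = n
  have hP0 : ∃ n, P n := ⟨_, 0, by simp, rfl⟩
  have hPb : ∀ n, P n → n ≤ Module.finrank K A := by
    rintro n ⟨a, -, rfl⟩
    exact Submodule.finrank_le _
  classical
  obtain ⟨n, hPn, hmax⟩ : ∃ n, P n ∧ ∀ m, P m → m ≤ n := by
    obtain ⟨n0, hn0⟩ := hP0
    refine ⟨Nat.findGreatest P (Module.finrank K A),
      Nat.findGreatest_spec (hPb n0 hn0) hn0, fun m hm => ?_⟩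
    exact Nat.le_findGreatest (hPb m hm) hm
  obtain ⟨a0, he, hen⟩ := hPn
  obtain ⟨e, heT⟩ : ∃ e, e = T a0 := ⟨_, rfl⟩
  rw [← heT] at he hen
  have hye : y * e = e * y := by rw [heT]; exact hN' a0
  obtain ⟨f, hf⟩ : ∃ f, f = 1 - e := ⟨_, rfl⟩
  have hff : f * f = f := by
    rw [hf, mul_sub, sub_mul, sub_mul, he, one_mul, one_mul, mul_one]
    abel
  have hyf : y * f = f * y := by rw [hf, mul_sub, sub_mul, hye, mul_one, one_mul]
  have hef : e * f = 0 := by rw [hf, mul_sub, he, mul_one, sub_self]
  have hfe : f * e = 0 := by rw [hf, sub_mul, he, one_mul, sub_self]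
  -- all elements `f t f` are nilpotent
  have hnil : ∀ a, IsNilpotent (f * T a * f) := by
    intro a
    by_contra hcon
    obtain ⟨g, hg0, hgi⟩ := fitting (K := K) _ hcon
    obtain ⟨x, hx⟩ : ∃ x, x = f * T a * f := ⟨_, rfl⟩
    rw [← hx] at hg0 hgi
    have hyx : y * x = x * y := by
      rw [hx, ← mul_assoc, ← mul_assoc, hyf, mul_assoc f y, hN', ← mul_assoc, mul_assoc (f * T a) y,
        hyf, ← mul_assoc]
    have hyg : y * Polynomial.aeval x g = Polynomial.aeval x g * y := by
      have hc : Commute y x := hyx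
      induction g using Polynomial.induction_on' with
      | add p q hp hq =>
        clear hg0 hgi
        rw [map_add, mul_add, add_mul]
        have hp' : y * Polynomial.aeval x p = Polynomial.aeval x p * y := by
          rw [Polynomial.aeval_eq_sum_range]
          exact (Commute.sum_right _ _ _ fun i _ => (hc.pow_right i).smul_right _)
        have hq' : y * Polynomial.aeval x q = Polynomial.aeval x q * y := by
          rw [Polynomial.aeval_eq_sum_range]
          exact (Commute.sum_right _ _ _ fun i _ => (hc.pow_right i).smul_right _)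
        rw [hp', hq']
      | monomial n c =>
        rw [Polynomial.aeval_monomial]
        have hcc : Commute y (algebraMap K A c) := (Algebra.commutes c y).symm
        exact hcc.mul_right (hc.pow_right n)
    obtain ⟨e', he'⟩ : ∃ e', e' = x * Polynomial.aeval x g := ⟨_, rfl⟩
    rw [← he'] at hg0 hgi
    have hfx : f * x = x := by rw [hx, ← mul_assoc, ← mul_assoc, hff]
    have hxf : x * f = x := by rw [hx, mul_assoc, hff]
    have hgx : x * Polynomial.aeval x g = Polynomial.aeval x g * x := by
      have : Polynomial.aeval x (Polynomial.X * g) = Polynomial.aeval x (g * Polynomial.X) := by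
        rw [mul_comm]
      rwa [map_mul, map_mul, Polynomial.aeval_X] at this
    have hfe' : f * e' = e' := by rw [he', ← mul_assoc, hfx]
    have he'f : e' * f = e' := by rw [he', hgx, mul_assoc, hxf]
    have hee' : e * e' = 0 := by rw [← hfe', ← mul_assoc, hef, zero_mul]
    have he'e : e' * e = 0 := by rw [← he'f, mul_assoc, hfe, mul_zero]
    have he'T : e' = T (f * a * f * Polynomial.aeval x g) := by
      have hxT : x = T (f * a * f) := by rw [hx, hnT' f a hyf, hTn' f _ hyf]
      rw [he', ← hTn' _ _ hyg, ← hxT]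
    have hsum : (e + e') * (e + e') = e + e' := by
      rw [mul_add, add_mul, add_mul, he, hee', he'e, hgi]
      abel
    have hsT : e + e' = T (a0 + f * a * f * Polynomial.aeval x g) := by
      rw [map_add, ← heT, ← he'T]
    have h1 := hmax _ ⟨_, by rw [← hsT]; exact hsum, rfl⟩
    rw [← hsT, ← hen] at h1
    have hlt : LinearMap.range (LinearMap.mulLeft K e) <
        LinearMap.range (LinearMap.mulLeft K (e + e')) := by
      refine lt_of_le_of_ne ?_ ?_
      · rintro _ ⟨b, rfl⟩
        refine ⟨e * b, ?_⟩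
        show (e + e') * (e * b) = e * b
        rw [← mul_assoc, add_mul, he, he'e, add_zero]
      · intro hcon2
        have h2 : e' ∈ LinearMap.range (LinearMap.mulLeft K (e + e')) := by
          refine ⟨e', ?_⟩
          show (e + e') * e' = e'
          rw [add_mul, hee', hgi, zero_add]
        rw [← hcon2] at h2
        obtain ⟨b, hb⟩ := h2
        have hb' : e * b = e' := hb
        apply hg0
        rw [← hb', ← he, mul_assoc, hb', hee']
    exact absurd (Submodule.finrank_lt_finrank_of_lt hlt) (not_lt.2 h1)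
  -- the nilpotent subspace
  let J : Submodule K A := LinearMap.range
    ((LinearMap.mulRight K f).comp ((LinearMap.mulLeft K f).comp T))
  have hJ : ∀ x, x ∈ J ↔ ∃ a, f * T a * f = x := fun x => Iff.rfl
  have hJJ : J * J ≤ J := by
    rw [Submodule.mul_le]
    rintro m hm n hn
    obtain ⟨a, rfl⟩ := (hJ m).1 hm
    obtain ⟨b, rfl⟩ := (hJ n).1 hn
    refine (hJ _).2 ⟨a * f * T b, ?_⟩
    rw [← hTn' (T b) (a * f) (hN' b), ← hTn' f a hyf]
    calc f * (T a * f * T b) * f = f * T a * (f * f) * T b * f := by rw [hff]; simp only [mul_assoc]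
      _ = f * T a * f * (f * T b * f) := by simp only [mul_assoc]
  obtain ⟨M, hM⟩ := nil_subspace J hJJ (by
    intro x hx
    obtain ⟨a, rfl⟩ := (hJ x).1 hx
    exact hnil a)
  refine ⟨f, hff, hyf, ⟨a0, by rw [hf, ← heT]; abel⟩, M, fun a => ?_⟩
  have hmem : ∀ m, ((List.range m).map fun i => f * T (a i) * f).prod ∈ J ^ m := by
    intro m
    induction m with
    | zero =>
      simp only [List.range_zero, List.map_nil, List.prod_nil, pow_zero]
      exact Submodule.mem_one.2 ⟨1, map_one _⟩
    | succ m ih =>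
      rw [List.range_succ, List.map_append, List.prod_append, pow_succ]
      refine Submodule.mul_mem_mul ih ?_
      simp only [List.map_cons, List.map_nil, List.prod_cons, List.prod_nil, mul_one]
      exact (hJ _).2 ⟨a m, rfl⟩
  have := hmem M
  rw [hM, Submodule.mem_bot] at this
  exact this

end Pool.Agent.PFE.H68
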