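import Pool.Agent.PFE.StmtsE1

/-!
# Squad PFE, row JPR: rules for `JP`
-/

open scoped BigOperators

namespace Pool.Agent.PFE.H68

theorem jpr (h : TxaStmt) : JprStmt := by
  intro K A X _ _ _ _ _ y l χ hl hy hχ
  obtain ⟨-, -, -, -, hid⟩ := h K A X y l χ hl hy hχ
  refine ⟨?_, ?_, ?_, ?_⟩
  · intro x b hb
    refine Submodule.subset_span ⟨fun _ => b, fun _ => ⟨x, hb⟩, ?_⟩
    simp
  · intro m n a b ha hb
    have key : JP y l χ m * JP y l χ n ≤ JP y l χ (m + n) := by
      unfold JP
      rw [Submodule.span_mul_span, Submodule.span_le]
      rintro _ ⟨_, ⟨f, hf, rfl⟩, _, ⟨g, hg, rfl⟩, rfl⟩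
      refine Submodule.subset_span ⟨fun i => if i < m then f i else g (i - m), ?_, ?_⟩
      · intro i
        by_cases hi : i < m
        · simp only [hi, if_true]
          exact hf i
        · simp only [hi, if_false]
          exact hg _
      · rw [List.range_add, List.map_append, List.prod_append, List.map_map]
        congr 2
        · apply List.map_congr_left
          intro i hi
          have hi' : i < m := List.mem_range.1 hi
          simp only [hi', if_true]
        · apply List.map_congr_left
          intro i _
          simp
    exact key (Submodule.mul_mem_mul ha hb)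
  · intro n x a b hn ha hb
    obtain ⟨k, rfl⟩ : ∃ k, n = k + 1 := ⟨n - 1, by omega⟩
    unfold JP at hb ⊢
    induction hb using Submodule.span_induction with
    | mem z hz =>
      obtain ⟨f, hf, rfl⟩ := hz
      refine Submodule.subset_span ⟨fun i => if i = 0 then a * f 0 else f i, ?_, ?_⟩
      · intro i
        by_cases hi : i = 0
        · obtain ⟨x', hx'⟩ := hf 0
          simp only [hi, if_true]
          exact ⟨x * x', (hid x x' a (f 0) ha hx').1⟩
        · simp only [hi, if_false]
          exact hf i
      · rw [List.range_succ_eq_map, List.map_cons, List.map_cons, List.prod_cons,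
          List.prod_cons, List.map_map, List.map_map, ← mul_assoc]
        congr 2
    | zero => rw [mul_zero]; exact Submodule.zero_mem _
    | add u v _ _ hu hv => rw [mul_add]; exact Submodule.add_mem _ hu hv
    | smul r u _ hu => rw [mul_smul_comm]; exact Submodule.smul_mem _ r hu
  · intro m n hmn hm
    rw [eq_bot_iff]
    unfold JP
    rw [Submodule.span_le]
    rintro _ ⟨f, hf, rfl⟩
    obtain ⟨k, rfl⟩ := Nat.exists_eq_add_of_le hmn
    rw [List.range_add, List.map_append, List.prod_append]
    have h0 : ((List.range m).map f).prod ∈ JP y l χ m :=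
      Submodule.subset_span ⟨f, hf, rfl⟩
    rw [hm, Submodule.mem_bot] at h0
    rw [h0, zero_mul]
    exact Submodule.zero_mem _

end Pool.Agent.PFE.H68
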